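import Mathlib

/-! # Choices of residues which are roots of a polynomial of small complexity

For `0 < α < 1` let `P_α(N)` be the set of the primes `N ^ α ≤ p < 2 N ^ α`, and for a choice `a` of one residue class `a(p)` modulo each
`p` in `P_α(N)` let `S_a(N)` be the number of the integers `1 ≤ n ≤ N` with `n ≡ a(p) (mod p)` for some `p` in `P_α(N)`. Q1 asks whether
`S_a(N) ≥ N ^ (1 - o(1))` for `1 / 2 < α < 1`, uniformly over all choices.

We prove this bound, for all `0 < α < 1`, uniformly over all the choices for which there is a nonzero polynomial `F` with integer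
coefficients of degree and logarithmic height at most `N ^ o(1)` such that `F(a(p)) ≡ 0 (mod p)` for `N ^ (α - o(1))` of the
primes. For instance all choices with `a(p) ≡ m_1, ..., or m_r (mod p)` for fewer than `N ^ o(1)` integers `m_i` of size at most
`exp (N ^ o(1))`, the index depending on `p` in any way. -/

set_option autoImplicit false

namespace Pool.Agent.Results.MP_bb5cc8_nt.AlgebraicChoices

open Finset Polynomial

open Classical in
/-- The set `P_α(N)` of the primes `p` with `N ^ α ≤ p < 2 N ^ α` (for `α ≤ 1` and `N ≥ 1` these are at most `2 N`). -/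
noncomputable def primesNear (α : ℝ) (N : ℕ) : Finset ℕ :=
  (range (2 * N + 1)).filter (fun p => p.Prime ∧ (N : ℝ) ^ α ≤ p ∧ (p : ℝ) < 2 * (N : ℝ) ^ α)

open Classical in
/-- The number `S_a(N)` of the integers `1 ≤ n ≤ N` with `n ≡ a(p) (mod p)` for some `p` in `P_α(N)`. -/
noncomputable def covered (α : ℝ) (N : ℕ) (a : ℕ → ℤ) : ℕ :=
  ((Icc 1 N).filter (fun n : ℕ => ∃ p ∈ primesNear α N, (p : ℤ) ∣ (n : ℤ) - a p)).card

open Classical in
/-- The number of the primes `p` in `P_α(N)` with `F(a(p)) ≡ 0 (mod p)`. -/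
noncomputable def hits (α : ℝ) (N : ℕ) (a : ℕ → ℤ) (F : ℤ[X]) : ℕ :=
  ((primesNear α N).filter (fun p : ℕ => (p : ℤ) ∣ F.eval (a p))).card

/-- The sum of the absolute values of the coefficients. -/
noncomputable def height (F : ℤ[X]) : ℝ := ∑ i ∈ F.support, |(F.coeff i : ℝ)|

lemma height_ge {F : ℤ[X]} (hF : F ≠ 0) : 1 ≤ height F := by
  unfold height
  have h1 : F.natDegree ∈ F.support := natDegree_mem_support_of_nonzero hF
  refine le_trans ?_ (single_le_sum (f := fun i => |(F.coeff i : ℝ)|) (fun i _ => abs_nonneg _) h1)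
  have h2 : F.coeff F.natDegree ≠ 0 := by
    rw [coeff_natDegree]
    exact leadingCoeff_ne_zero.2 hF
  have h3 : 1 ≤ |F.coeff F.natDegree| := Int.one_le_abs h2
  have : ((1 : ℤ) : ℝ) ≤ ((|F.coeff F.natDegree| : ℤ) : ℝ) := by exact_mod_cast h3
  rw [Int.cast_abs] at this
  simpa using this

lemma eval_le (F : ℤ[X]) (n N : ℕ) (hn1 : 1 ≤ n) (hn : n ≤ N) :
    |((F.eval (n : ℤ) : ℤ) : ℝ)| ≤ height F * (N : ℝ) ^ F.natDegree := by
  have hN1 : (1 : ℝ) ≤ N := by exact_mod_cast hn1.trans hn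
  have hn0 : (0 : ℝ) ≤ n := Nat.cast_nonneg _
  have hnN : (n : ℝ) ≤ N := by exact_mod_cast hn
  rw [eval_eq_sum, Polynomial.sum]
  push_cast
  unfold height
  rw [sum_mul]
  refine (abs_sum_le_sum_abs _ _).trans (sum_le_sum fun i hi => ?_)
  rw [abs_mul, abs_of_nonneg (pow_nonneg hn0 i)]
  apply mul_le_mul_of_nonneg_left _ (abs_nonneg _)
  calc (n : ℝ) ^ i ≤ (N : ℝ) ^ i := pow_le_pow_left₀ hn0 hnN i
    _ ≤ (N : ℝ) ^ F.natDegree := pow_le_pow_right₀ hN1 (le_natDegree_of_mem_supp i hi)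

/-- each class contains at least `N / p` integers up to `N` -/
lemma class_card (N p : ℕ) (hp : 0 < p) (a : ℤ) :
    N / p ≤ ((Icc 1 N).filter (fun n : ℕ => (p : ℤ) ∣ (n : ℤ) - a)).card := by
  classical
  have hpz : (0 : ℤ) < p := by exact_mod_cast hp
  obtain ⟨s, hs⟩ : ∃ s : ℕ, (s : ℤ) = (a - 1) % p := ⟨((a - 1) % p).toNat, Int.toNat_of_nonneg (Int.emod_nonneg _ hpz.ne')⟩
  have hsp : s < p := by
    have := Int.emod_lt_of_pos (a - 1) hpz
    rw [← hs] at this
    exact_mod_cast this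
  have h1 : (range (N / p)).card ≤ ((Icc 1 N).filter (fun n : ℕ => (p : ℤ) ∣ (n : ℤ) - a)).card := by
    apply card_le_card_of_injOn (fun i => i * p + 1 + s)
    · intro i hi
      rw [mem_coe, mem_range] at hi
      rw [mem_coe, mem_filter, mem_Icc]
      simp only
      have h2 : (i + 1) * p ≤ N := (Nat.mul_le_mul_right p hi).trans (Nat.div_mul_le_self N p)
      refine ⟨⟨by omega, ?_⟩, ?_⟩
      · have : (i + 1) * p = i * p + p := by ring
        omega
      · push_cast
        rw [hs]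
        have h3 := Int.emod_add_mul_ediv (a - 1) p
        refine ⟨i - (a - 1) / p, ?_⟩
        linear_combination h3
    · intro i _ j _ hij
      simp only at hij
      have : i * p = j * p := by omega
      exact Nat.eq_of_mul_eq_mul_right hp this
  rwa [card_range] at h1

/-- the number of the primes of `P_α(N)` dividing a nonzero integer -/
lemma card_primes_dvd {α : ℝ} {N : ℕ} (hα : 0 < α) (hN : 2 ≤ N) (Q : Finset ℕ) (hQ : Q ⊆ primesNear α N) (z : ℤ) (hz : z ≠ 0)
    (hdvd : ∀ p ∈ Q, (p : ℤ) ∣ z) : (Q.card : ℝ) * (α * Real.log N) ≤ Real.log |(z : ℝ)| := by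
  classical
  have hN0 : (0 : ℝ) < N := by exact_mod_cast (by omega : 0 < N)
  have hN1 : (1 : ℝ) ≤ N := by exact_mod_cast (by omega : 1 ≤ N)
  have hQp : ∀ p ∈ Q, p.Prime ∧ (N : ℝ) ^ α ≤ p := by
    intro p hp
    have := hQ hp
    unfold primesNear at this
    rw [mem_filter] at this
    exact ⟨this.2.1, this.2.2.1⟩
  have h1 : (∏ p ∈ Q, p) ∣ z.natAbs := by
    apply Finset.prod_primes_dvd
    · intro p hp
      exact (hQp p hp).1.prime
    · intro p hp
      exact Int.natCast_dvd.1 (hdvd p hp)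
  have h2 : ∏ p ∈ Q, p ≤ z.natAbs := Nat.le_of_dvd (Int.natAbs_pos.2 hz) h1
  have h3 : ((N : ℝ) ^ α) ^ Q.card ≤ |(z : ℝ)| := by
    calc ((N : ℝ) ^ α) ^ Q.card = ∏ p ∈ Q, (N : ℝ) ^ α := by rw [prod_const]
      _ ≤ ∏ p ∈ Q, (p : ℝ) := prod_le_prod (fun p _ => by positivity) fun p hp => (hQp p hp).2
      _ = ((∏ p ∈ Q, p : ℕ) : ℝ) := by push_cast; rfl
      _ ≤ (z.natAbs : ℝ) := by exact_mod_cast h2
      _ = |(z : ℝ)| := by rw [Nat.cast_natAbs]; push_cast; rfl
  have h4 := Real.log_le_log (by positivity) h3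
  rw [Real.log_pow, Real.log_rpow hN0] at h4
  exact h4

/-- **Choices which are roots of polynomials.** Let `0 < α < 1`.

(1) For all sufficiently large `N`, all choices `a`, all nonzero polynomials `F` with integer coefficients with
`8 deg F ≤ N ^ (1 - α)`: if `K` is the number of the primes `p` in `P_α(N)` with `F(a(p)) ≡ 0 (mod p)` and `H` is the sum of the
absolute values of the coefficients of `F`, then `S_a(N) (log H + deg F log N) ≥ (α / 8) K N ^ (1 - α) log N`.

(2) Let `0 < ε < 1 - α`. For all sufficiently large `N` and all choices `a` for which there is a nonzero polynomial `F` with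
integer coefficients, `deg F ≤ N ^ ε`, `log H ≤ N ^ ε`, such that `F(a(p)) ≡ 0 (mod p)` for at least `N ^ (α - ε)` of the primes `p` in
`P_α(N)`: `S_a(N) ≥ N ^ (1 - 3 ε)`. -/
theorem result (α : ℝ) (hα : 0 < α) (hα1 : α < 1) :
    (∃ N₀ : ℕ, ∀ N : ℕ, N₀ ≤ N → ∀ (a : ℕ → ℤ) (F : ℤ[X]), F ≠ 0 → 8 * (F.natDegree : ℝ) ≤ (N : ℝ) ^ (1 - α) →
      α / 8 * hits α N a F * (N : ℝ) ^ (1 - α) * Real.log N ≤
        covered α N a * (Real.log (height F) + F.natDegree * Real.log N)) ∧
    (∀ ε : ℝ, 0 < ε → ε < 1 - α → ∃ N₀ : ℕ, ∀ N : ℕ, N₀ ≤ N → ∀ a : ℕ → ℤ,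
      (∃ F : ℤ[X], F ≠ 0 ∧ (F.natDegree : ℝ) ≤ (N : ℝ) ^ ε ∧ Real.log (height F) ≤ (N : ℝ) ^ ε ∧
        (N : ℝ) ^ (α - ε) ≤ hits α N a F) → (N : ℝ) ^ (1 - 3 * ε) ≤ covered α N a) := by
  classical
  have hpart1 : ∃ N₀ : ℕ, 3 ≤ N₀ ∧ ∀ N : ℕ, N₀ ≤ N → ∀ (a : ℕ → ℤ) (F : ℤ[X]), F ≠ 0 → 8 * (F.natDegree : ℝ) ≤ (N : ℝ) ^ (1 - α) →
      α / 8 * hits α N a F * (N : ℝ) ^ (1 - α) * Real.log N ≤
        covered α N a * (Real.log (height F) + F.natDegree * Real.log N) := by
    obtain ⟨N₁, hN₁⟩ : ∃ N₁ : ℕ, ∀ N : ℕ, N₁ ≤ N → (4 : ℝ) ≤ (N : ℝ) ^ (1 - α) := by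
      have h1 := ((tendsto_rpow_atTop (show 0 < 1 - α by linarith)).comp tendsto_natCast_atTop_atTop).eventually_ge_atTop (4 : ℝ)
      exact Filter.eventually_atTop.1 h1
    refine ⟨N₁ + 3, by omega, fun N hN a F hF hdeg => ?_⟩
    have hN0 : (0 : ℝ) < N := by exact_mod_cast (by omega : 0 < N)
    have hN1 : (1 : ℝ) < N := by exact_mod_cast (by omega : 1 < N)
    have hL : 0 < Real.log N := Real.log_pos hN1
    have hy4 := hN₁ N (by omega)
    obtain ⟨Y, hY⟩ : ∃ Y : ℝ, Y = (N : ℝ) ^ (1 - α) := ⟨_, rfl⟩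
    rw [← hY] at hy4 hdeg ⊢
    have hYN : (N : ℝ) ^ α * Y = N := by
      rw [hY, ← Real.rpow_add hN0]
      norm_num
    have hNα : 0 < (N : ℝ) ^ α := by positivity
    obtain ⟨P, hP⟩ : ∃ P : Finset ℕ, P = (primesNear α N).filter (fun p : ℕ => (p : ℤ) ∣ F.eval (a p)) := ⟨_, rfl⟩
    obtain ⟨K, hK⟩ : ∃ K : ℝ, K = (P.card : ℝ) := ⟨_, rfl⟩
    have hhits : (hits α N a F : ℝ) = K := by
      unfold hits
      rw [hK, hP]
    have hK0 : 0 ≤ K := by rw [hK]; positivity
    obtain ⟨Z, hZ⟩ : ∃ Z : Finset ℕ, Z = (Icc 1 N).filter (fun n : ℕ => ∃ p ∈ primesNear α N, (p : ℤ) ∣ (n : ℤ) - a p) := ⟨_, rfl⟩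
    have hcov : (covered α N a : ℝ) = Z.card := by
      unfold covered
      rw [hZ]
    rw [hhits, hcov]
    obtain ⟨r, hr⟩ : ∃ r : ℕ → ℕ, r = fun n : ℕ => (P.filter (fun p : ℕ => (p : ℤ) ∣ (n : ℤ) - a p)).card := ⟨_, rfl⟩
    -- lower bound for the pairs
    have hlow : K * (Y / 4) ≤ ∑ n ∈ Icc 1 N, (r n : ℝ) := by
      have e1 : ∑ n ∈ Icc 1 N, (r n : ℝ) = ∑ p ∈ P, (((Icc 1 N).filter (fun n : ℕ => (p : ℤ) ∣ (n : ℤ) - a p)).card : ℝ) := by
        rw [hr]
        simp only [card_filter]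
        push_cast
        exact sum_comm
      rw [e1, hK, ← nsmul_eq_mul]
      apply card_nsmul_le_sum
      intro p hp
      have hp' : p ∈ primesNear α N := by
        rw [hP, mem_filter] at hp
        exact hp.1
      unfold primesNear at hp'
      rw [mem_filter] at hp'
      have hp0 : (0 : ℝ) < p := by exact_mod_cast hp'.2.1.pos
      have h1 := class_card N p hp'.2.1.pos (a p)
      have h2 : ((N / p : ℕ) : ℝ) ≤ (((Icc 1 N).filter (fun n : ℕ => (p : ℤ) ∣ (n : ℤ) - a p)).card : ℝ) := by exact_mod_cast h1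
      refine le_trans ?_ h2
      have h3 : (N : ℝ) / p < (N / p : ℕ) + 1 := by
        rw [div_lt_iff₀ hp0]
        have h4 := Nat.lt_div_mul_add hp'.2.1.pos (a := N)
        have h5 : (N : ℝ) < (N / p : ℕ) * p + p := by exact_mod_cast h4
        linarith
      have h4 : Y / 2 ≤ (N : ℝ) / p := by
        rw [div_le_div_iff₀ (by norm_num) hp0]
        have h5 : Y * p ≤ Y * (2 * (N : ℝ) ^ α) := mul_le_mul_of_nonneg_left hp'.2.2.2.le (by linarith)
        calc Y * p ≤ Y * (2 * (N : ℝ) ^ α) := h5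
          _ = ((N : ℝ) ^ α * Y) * 2 := by ring
          _ = N * 2 := by rw [hYN]
      linarith
    -- upper bound
    obtain ⟨A, hA⟩ : ∃ A : ℝ, A = Real.log (height F) + F.natDegree * Real.log N := ⟨_, rfl⟩
    rw [← hA]
    have hH1 := height_ge hF
    have hA0 : 0 ≤ A := by
      rw [hA]
      have := Real.log_nonneg hH1
      positivity
    have hone : ∀ n ∈ Icc 1 N, (r n : ℝ) * (α * Real.log N) ≤ (if n ∈ Z then A else 0) +
        if F.eval (n : ℤ) = 0 then K * (α * Real.log N) else 0 := by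
      intro n hn
      rw [mem_Icc] at hn
      have hrK : (r n : ℝ) ≤ K := by
        rw [hr, hK]
        exact_mod_cast card_le_card (filter_subset _ _)
      have hA' : 0 ≤ (if n ∈ Z then A else 0) := by split_ifs <;> [exact hA0; exact le_rfl]
      by_cases hz : F.eval (n : ℤ) = 0
      · rw [if_pos hz]
        have : (r n : ℝ) * (α * Real.log N) ≤ K * (α * Real.log N) := mul_le_mul_of_nonneg_right hrK (by positivity)
        linarith
      · rw [if_neg hz, add_zero]
        by_cases hZn : n ∈ Z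
        · rw [if_pos hZn]
          have h1 := card_primes_dvd hα (by omega : 2 ≤ N) (P.filter (fun p : ℕ => (p : ℤ) ∣ (n : ℤ) - a p))
            ((filter_subset _ _).trans (by rw [hP]; exact filter_subset _ _)) (F.eval (n : ℤ)) hz (by
            intro p hp
            rw [mem_filter, hP, mem_filter] at hp
            have h2 : (n : ℤ) - a p ∣ F.eval (n : ℤ) - F.eval (a p) := Polynomial.sub_dvd_eval_sub _ _ _
            have h3 : (p : ℤ) ∣ F.eval (n : ℤ) - F.eval (a p) := hp.2.trans h2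
            exact (Int.dvd_iff_dvd_of_dvd_sub h3).2 hp.1.2)
          have h2 : Real.log |((F.eval (n : ℤ) : ℤ) : ℝ)| ≤ A := by
            have h3 := eval_le F n N hn.1 hn.2
            have h4 : 0 < |((F.eval (n : ℤ) : ℤ) : ℝ)| := abs_pos.2 (by exact_mod_cast hz)
            have h5 := Real.log_le_log h4 h3
            rw [Real.log_mul (by linarith) (by positivity), Real.log_pow] at h5
            rw [hA]
            exact h5
          rw [hr]
          exact h1.trans h2
        · rw [if_neg hZn]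
          have h1 : r n = 0 := by
            rw [hr]
            simp only
            rw [card_eq_zero, filter_eq_empty_iff]
            intro p hp hdv
            apply hZn
            rw [hZ, mem_filter, mem_Icc]
            rw [hP, mem_filter] at hp
            exact ⟨hn, p, hp.1, hdv⟩
          rw [h1]
          simp
    have hup : (∑ n ∈ Icc 1 N, (r n : ℝ)) * (α * Real.log N) ≤ Z.card * A + F.natDegree * (K * (α * Real.log N)) := by
      rw [sum_mul]
      refine (sum_le_sum hone).trans ?_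
      rw [sum_add_distrib]
      apply add_le_add
      · rw [← sum_filter, sum_const, nsmul_eq_mul]
        apply mul_le_mul_of_nonneg_right _ hA0
        have : (Icc 1 N).filter (fun n => n ∈ Z) ⊆ Z := by
          intro n hn
          exact (mem_filter.1 hn).2
        exact_mod_cast card_le_card this
      · rw [← sum_filter, sum_const, nsmul_eq_mul]
        apply mul_le_mul_of_nonneg_right _ (by positivity)
        have h1 : ((Icc 1 N).filter (fun n : ℕ => F.eval (n : ℤ) = 0)).card ≤ F.natDegree := by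
          refine le_trans ?_ (Polynomial.card_roots' F)
          refine le_trans ?_ (Multiset.toFinset_card_le _)
          apply card_le_card_of_injOn (fun n : ℕ => (n : ℤ))
          · intro n hn
            rw [mem_coe, mem_filter] at hn
            rw [mem_coe, Multiset.mem_toFinset, mem_roots hF, IsRoot.def]
            exact hn.2
          · intro i _ j _ hij
            simp only at hij
            exact_mod_cast hij
        exact_mod_cast h1
    have h1 : K * (Y / 4) * (α * Real.log N) ≤ (∑ n ∈ Icc 1 N, (r n : ℝ)) * (α * Real.log N) :=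
      mul_le_mul_of_nonneg_right hlow (by positivity)
    have h2 : (F.natDegree : ℝ) * (K * (α * Real.log N)) ≤ Y / 8 * (K * (α * Real.log N)) :=
      mul_le_mul_of_nonneg_right (by linarith) (by positivity)
    have h3 : α / 8 * K * Y * Real.log N = K * (Y / 4) * (α * Real.log N) - Y / 8 * (K * (α * Real.log N)) := by ring
    rw [h3]
    linarith
  obtain ⟨N₀, hN₀3, hmain⟩ := hpart1
  refine ⟨⟨N₀, hmain⟩, fun ε hε hε1 => ?_⟩
  obtain ⟨N₁, hN₁⟩ : ∃ N₁ : ℕ, ∀ N : ℕ, N₁ ≤ N → (8 : ℝ) ≤ (N : ℝ) ^ (1 - α - ε) := by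
    have h1 := ((tendsto_rpow_atTop (show 0 < 1 - α - ε by linarith)).comp tendsto_natCast_atTop_atTop).eventually_ge_atTop (8 : ℝ)
    exact Filter.eventually_atTop.1 h1
  obtain ⟨N₂, hN₂⟩ : ∃ N₂ : ℕ, ∀ N : ℕ, N₂ ≤ N → (16 / α : ℝ) ≤ (N : ℝ) ^ ε := by
    have h1 := ((tendsto_rpow_atTop hε).comp tendsto_natCast_atTop_atTop).eventually_ge_atTop (16 / α : ℝ)
    exact Filter.eventually_atTop.1 h1
  refine ⟨N₀ + N₁ + N₂ + 3, fun N hN a => ?_⟩
  rintro ⟨F, hF, hdeg, hheight, hh⟩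
  have hN0 : (0 : ℝ) < N := by exact_mod_cast (by omega : 0 < N)
  have hN3 : (3 : ℝ) ≤ N := by exact_mod_cast (by omega : 3 ≤ N)
  have hL1 : 1 ≤ Real.log N := by
    rw [Real.le_log_iff_exp_le hN0]
    have := Real.exp_one_lt_d9
    linarith
  have hL : 0 < Real.log N := by linarith
  have h1 := hmain N (by omega) a F hF (by
    have h2 := hN₁ N (by omega)
    have h3 : (N : ℝ) ^ (1 - α) = (N : ℝ) ^ (1 - α - ε) * (N : ℝ) ^ ε := by
      rw [← Real.rpow_add hN0]
      congr 1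
      ring
    rw [h3]
    exact mul_le_mul h2 hdeg (Nat.cast_nonneg _) (by positivity))
  have h2 : Real.log (height F) + F.natDegree * Real.log N ≤ 2 * (N : ℝ) ^ ε * Real.log N := by
    have h3 : (F.natDegree : ℝ) * Real.log N ≤ (N : ℝ) ^ ε * Real.log N := mul_le_mul_of_nonneg_right hdeg hL.le
    have h4 : (N : ℝ) ^ ε ≤ (N : ℝ) ^ ε * Real.log N := le_mul_of_one_le_right (by positivity) hL1
    linarith
  have h3 : (covered α N a : ℝ) * (Real.log (height F) + F.natDegree * Real.log N) ≤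
      covered α N a * (2 * (N : ℝ) ^ ε * Real.log N) := mul_le_mul_of_nonneg_left h2 (Nat.cast_nonneg _)
  have h4 : α / 8 * (N : ℝ) ^ (α - ε) * (N : ℝ) ^ (1 - α) * Real.log N ≤ α / 8 * hits α N a F * (N : ℝ) ^ (1 - α) * Real.log N := by
    apply mul_le_mul_of_nonneg_right _ hL.le
    apply mul_le_mul_of_nonneg_right _ (by positivity)
    exact mul_le_mul_of_nonneg_left hh (by positivity)
  have h5 : (N : ℝ) ^ (α - ε) * (N : ℝ) ^ (1 - α) = (N : ℝ) ^ (1 - 3 * ε) * (N : ℝ) ^ ε * (N : ℝ) ^ ε := by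
    rw [← Real.rpow_add hN0, ← Real.rpow_add hN0, ← Real.rpow_add hN0]
    congr 1
    ring
  have h6 : α / 8 * ((N : ℝ) ^ (1 - 3 * ε) * (N : ℝ) ^ ε * (N : ℝ) ^ ε) * Real.log N ≤
      (covered α N a * 2) * ((N : ℝ) ^ ε * Real.log N) := by
    rw [← h5]
    calc α / 8 * ((N : ℝ) ^ (α - ε) * (N : ℝ) ^ (1 - α)) * Real.log N = α / 8 * (N : ℝ) ^ (α - ε) * (N : ℝ) ^ (1 - α) * Real.log N := by ring
      _ ≤ _ := h4.trans (h1.trans h3)
      _ = _ := by ring
  have h7 : α / 8 * ((N : ℝ) ^ (1 - 3 * ε) * (N : ℝ) ^ ε * (N : ℝ) ^ ε) * Real.log N =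
      (α / 8 * (N : ℝ) ^ (1 - 3 * ε) * (N : ℝ) ^ ε) * ((N : ℝ) ^ ε * Real.log N) := by ring
  rw [h7] at h6
  have h8 := le_of_mul_le_mul_right h6 (by positivity)
  have h9 : 2 * (N : ℝ) ^ (1 - 3 * ε) ≤ α / 8 * (N : ℝ) ^ (1 - 3 * ε) * (N : ℝ) ^ ε := by
    have h10 := hN₂ N (by omega)
    have h11 : α / 8 * (N : ℝ) ^ (1 - 3 * ε) * (16 / α) ≤ α / 8 * (N : ℝ) ^ (1 - 3 * ε) * (N : ℝ) ^ ε :=
      mul_le_mul_of_nonneg_left h10 (by positivity)
    have h12 : α / 8 * (N : ℝ) ^ (1 - 3 * ε) * (16 / α) = 2 * (N : ℝ) ^ (1 - 3 * ε) := by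
      field_simp
      ring
    linarith
  linarith

end Pool.Agent.Results.MP_bb5cc8_nt.AlgebraicChoices
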