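import Pool.Agent.R416.CV.Asym

/-!
# Covering `[1, N]` by one residue class for each prime near `N^α`: almost all choices

`1 / 2 < α < 1`.  A choice `a` consists of one residue class modulo each of the `K` primes
`N^α ≤ p < 2 N^α`; there are `M = ∏ p` choices.  `S_a(N)` is the number of integers of `[1, N]` in
at least one of the chosen classes; trivially `S_a(N) = O(N / log N)`.  The question is whether
`S_a(N) ≥ N^{1 - o(1)}` for ALL choices.  We prove:

(1) for every `η > 0` there is `δ > 0` such that for all large `N` at most `M^{(2α - 1)/α + η}` of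
the `M` choices have `S_a(N) ≤ δ N / log N`; more precisely, for all `1 ≤ X ≤ δ N / log N` at most
`M^{(2α - 1)/α + η} (X / N)^K` choices have `S_a(N) ≤ X`;

(2) for all `0 < ε ≤ 1` and `η > 0` at most `M^{(2α - 1 - ε)/α + η}` choices have
`S_a(N) ≤ N^{1 - ε}`, for all large `N`.

As `(2α - 1)/α < 1`, the order of magnitude `N / log N` is correct for all choices outside a set
of relative size `M^{-(1 - α)/α + η}`.

Proof.  If the union of the classes of `a` has at most `X` elements, a greedy choice gives a set `D`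
of at most `8 X N^{α - 1}` primes such that for each prime `p` not in `D` at least half of the class
`a p` is covered by the classes `a q`, `q ∈ D`.  Let `C` be the union of the latter.  By the large
sieve (for the functions `1_{n = r mod p} - 1 / p`) at most `O(|C| N^{3α - 2})` classes modulo all
the primes together have at least half of their elements in `C`, which is `O(N^{2α - 1} log N X/N)`
for an average prime.  So, when `D` and the values of `a` on `D` are given (which are few
possibilities), the number of possible `a` is at most `(O(N^{2α - 1} log N X/N))^{K - |D|}`.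
-/

set_option autoImplicit false

open Filter

namespace Pool.Agent.Results.MP_bb5cc8_nt.AlmostAllChoices

open Pool.Agent.H170R2.PC Pool.Agent.R416.CV

/-- Only few choices of residue classes cover few integers.  `numSmall α N X` is the number of
choices `a` with `S_a(N) ≤ X`, `numChoices α N` the number of all choices, `numPrimes α N` the
number of the primes. -/
theorem result (α : ℝ) (h1 : 1 / 2 < α) (h2 : α < 1) :
    (∀ η : ℝ, 0 < η → ∃ δ : ℝ, 0 < δ ∧ ∃ N₀ : ℕ, ∀ N : ℕ, N₀ ≤ N →
      (∀ X : ℝ, 1 ≤ X → X ≤ δ * N / Real.log N →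
        (numSmall α N X : ℝ) ≤
          (numChoices α N : ℝ) ^ ((2 * α - 1) / α + η) * (X / N) ^ (numPrimes α N)) ∧
      (numSmall α N (δ * N / Real.log N) : ℝ) ≤
        (numChoices α N : ℝ) ^ ((2 * α - 1) / α + η)) ∧
    (∀ ε η : ℝ, 0 < ε → ε ≤ 1 → 0 < η → ∃ N₀ : ℕ, ∀ N : ℕ, N₀ ≤ N →
      (numSmall α N ((N : ℝ) ^ (1 - ε)) : ℝ) ≤
        (numChoices α N : ℝ) ^ ((2 * α - 1 - ε) / α + η)) := by
  have hα : 0 < α := by linarith
  have hlog : Tendsto (fun N : ℕ => Real.log (N : ℝ)) atTop atTop :=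
    Real.tendsto_log_atTop.comp tendsto_natCast_atTop_atTop
  have hll : ∀ c : ℝ, 0 < c → ∀ᶠ N : ℕ in atTop, Real.log (N : ℝ) ≤ c * N := by
    intro c hc
    have ho := (Real.isLittleO_log_id_atTop.bound hc)
    have ho2 := tendsto_natCast_atTop_atTop.eventually ho
    filter_upwards [ho2] with N hN
    refine (le_abs_self _).trans ?_
    rw [Real.norm_eq_abs, id, Real.norm_of_nonneg (Nat.cast_nonneg _)] at hN
    exact hN
  refine ⟨fun η hη => ?_, fun ε η hε hε1 hη => ?_⟩
  · obtain ⟨δ, hδ, N₀, hmain⟩ := main_X h1 h2 hη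
    have hev := ((hlog.eventually (eventually_ge_atTop (max 1 δ))).and (hll δ hδ)).and
      (eventually_ge_atTop (max 1 N₀))
    obtain ⟨N₁, hN₁⟩ := eventually_atTop.1 hev
    refine ⟨δ, hδ, N₁, fun N hN => ?_⟩
    obtain ⟨⟨h3, h4⟩, h5⟩ := hN₁ N hN
    have hN1 : 1 ≤ N := (le_max_left _ _).trans h5
    have hNN : N₀ ≤ N := (le_max_right _ _).trans h5
    have hN0 : (0 : ℝ) < N := by exact_mod_cast hN1
    have hl0 : 0 < Real.log (N : ℝ) := lt_of_lt_of_le one_pos ((le_max_left _ _).trans h3)
    have hld : δ ≤ Real.log (N : ℝ) := (le_max_right _ _).trans h3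
    refine ⟨hmain N hNN, ?_⟩
    have h6 := hmain N hNN (δ * N / Real.log N)
      (by rw [le_div_iff₀ hl0, one_mul]; exact h4) le_rfl
    refine h6.trans ?_
    have h7 : (δ * N / Real.log N / N) ^ numPrimes α N ≤ 1 := by
      apply pow_le_one₀ (by positivity)
      rw [div_div, div_le_one (by positivity)]
      rw [mul_comm (Real.log (N : ℝ))]
      nlinarith
    calc _ ≤ (numChoices α N : ℝ) ^ ((2 * α - 1) / α + η) * 1 := by
          apply mul_le_mul_of_nonneg_left h7
          positivity
      _ = _ := mul_one _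
  · obtain ⟨δ, hδ, N₀, hmain⟩ := main_X h1 h2 (show 0 < η / 2 by positivity)
    have hpow : ∀ᶠ N : ℕ in atTop, Real.log (N : ℝ) ≤ δ * (N : ℝ) ^ ε := by
      have ho := (isLittleO_log_rpow_atTop hε).bound hδ
      have ho2 := tendsto_natCast_atTop_atTop.eventually ho
      filter_upwards [ho2] with N hN
      refine (le_abs_self _).trans ?_
      rw [Real.norm_eq_abs, Real.norm_of_nonneg (by positivity)] at hN
      exact hN
    have hev := ((hlog.eventually (eventually_ge_atTop (max 1 (ε * Real.log 2 / α / (α * η / 2))))).and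
      hpow).and (eventually_ge_atTop (max 1 N₀))
    obtain ⟨N₁, hN₁⟩ := eventually_atTop.1 hev
    refine ⟨N₁, fun N hN => ?_⟩
    obtain ⟨⟨h3, h4⟩, h5⟩ := hN₁ N hN
    have hN1 : 1 ≤ N := (le_max_left _ _).trans h5
    have hNN : N₀ ≤ N := (le_max_right _ _).trans h5
    have hN0 : (0 : ℝ) < N := by exact_mod_cast hN1
    obtain ⟨ℓ, hℓ⟩ : ∃ ℓ, ℓ = Real.log (N : ℝ) := ⟨_, rfl⟩
    rw [← hℓ] at h3 h4
    have hl0 : 0 < ℓ := lt_of_lt_of_le one_pos ((le_max_left _ _).trans h3)
    have hle : ε * Real.log 2 / α ≤ α * η / 2 * ℓ := by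
      have := (le_max_right _ _).trans h3
      rw [div_le_iff₀ (by positivity)] at this
      linarith
    have hNe : (N : ℝ) = Real.exp ℓ := by rw [hℓ, Real.exp_log hN0]
    have hNe2 : ∀ s : ℝ, (N : ℝ) ^ s = Real.exp (s * ℓ) := by
      intro s
      rw [Real.rpow_def_of_pos hN0, ← hℓ, mul_comm]
    have h6 := hmain N hNN ((N : ℝ) ^ (1 - ε))
      (by rw [hNe2]; exact Real.one_le_exp (mul_nonneg (by linarith) hl0.le))
      (by
        rw [← hℓ, le_div_iff₀ hl0]
        calc (N : ℝ) ^ (1 - ε) * ℓ ≤ (N : ℝ) ^ (1 - ε) * (δ * (N : ℝ) ^ ε) := by gcongr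
          _ = δ * ((N : ℝ) ^ (1 - ε) * (N : ℝ) ^ ε) := by ring
          _ = δ * N := by rw [← Real.rpow_add hN0]; simp)
    refine h6.trans ?_
    -- bounds for the number of choices
    obtain ⟨K, hK⟩ : ∃ K, K = (PD α N).card := ⟨_, rfl⟩
    have hMlo : Real.exp (K * (α * ℓ)) ≤ (numChoices α N : ℝ) := by
      rw [numChoices_eq, Real.exp_nat_mul]
      push_cast
      rw [hK, ← Finset.prod_const]
      apply Finset.prod_le_prod
      · intro p _; positivity
      · intro p hp
        rw [← hNe2]; exact (mem_PD.1 hp).2.1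
    have hMhi : (numChoices α N : ℝ) ≤ Real.exp (K * (Real.log 2 + α * ℓ)) := by
      rw [numChoices_eq, Real.exp_nat_mul]
      push_cast
      rw [hK, ← Finset.prod_const]
      apply Finset.prod_le_prod
      · intro p _; positivity
      · intro p hp
        rw [Real.exp_add, Real.exp_log two_pos, ← hNe2]; exact (mem_PD.1 hp).2.2.le
    have hM0 : (0 : ℝ) < (numChoices α N : ℝ) := lt_of_lt_of_le (Real.exp_pos _) hMlo
    obtain ⟨μ, hμ⟩ : ∃ μ, μ = Real.log (numChoices α N : ℝ) := ⟨_, rfl⟩
    have hMe : ∀ s : ℝ, (numChoices α N : ℝ) ^ s = Real.exp (s * μ) := by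
      intro s
      rw [Real.rpow_def_of_pos hM0, ← hμ, mul_comm]
    have hμ1 : K * (α * ℓ) ≤ μ := by
      rw [hμ]; exact (Real.le_log_iff_exp_le hM0).2 hMlo
    have hμ2 : μ ≤ K * (Real.log 2 + α * ℓ) := by
      rw [hμ]; exact (Real.log_le_iff_le_exp hM0).2 hMhi
    have hq : (N : ℝ) ^ (1 - ε) / N = Real.exp (-(ε * ℓ)) := by
      rw [hNe2]
      nth_rewrite 1 [hNe]
      rw [← Real.exp_sub]
      congr 1
      ring
    rw [hMe, hMe, hq, numPrimes_eq, ← hK, ← Real.exp_nat_mul, ← Real.exp_add]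
    apply Real.exp_le_exp.2
    have hK0 : (0 : ℝ) ≤ K := Nat.cast_nonneg _
    have e1 : ((2 * α - 1 - ε) / α + η) * μ = ((2 * α - 1) / α + η / 2) * μ +
        (η / 2 * μ - ε / α * μ) := by
      field_simp
      ring
    rw [e1]
    have e2 : ε / α * μ ≤ ε / α * (K * (Real.log 2 + α * ℓ)) :=
      mul_le_mul_of_nonneg_left hμ2 (by positivity)
    have e3 : ε / α * (K * (Real.log 2 + α * ℓ)) = K * (ε * Real.log 2 / α) + K * (ε * ℓ) := by
      field_simp
    have e4 : η / 2 * (K * (α * ℓ)) ≤ η / 2 * μ := mul_le_mul_of_nonneg_left hμ1 (by positivity)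
    have e5 : K * (ε * Real.log 2 / α) ≤ K * (α * η / 2 * ℓ) := mul_le_mul_of_nonneg_left hle hK0
    nlinarith

end Pool.Agent.Results.MP_bb5cc8_nt.AlmostAllChoices
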