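import Pool.Agent.H170R2.PC.Asym
import Pool.Agent.R181.Thin

/-!
# Covering `[1, N]` by one residue class for each prime near `N^α`: closed sets of incidences

Let `1/2 < α < 1`, let `a` be a choice of one residue class for each prime `N^α ≤ p < 2 N^α`, and let
`I` be the set of all pairs `(p, n)` such that `n ≤ N` is in the class chosen for `p`. It has
`N^{1-o(1)}` elements and contains no `K_{2,2}`. We consider subsets `F` of `I` which are closed under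
the componentwise application of some operations `s` (on the primes) and `t` (on the integers).
The operations are arbitrary and may depend on `N`, `a` and `F`.

* If `s`, `t` are semilattice operations (for example minimum, maximum, meet or join for some
  lattices, intersection or union for some encodings) or Mal'tsev operations (for example `x - y + z`
  for some group structures), then `|F| ≤ |P| + S_a(N)`, where `P` is the set of the primes.
  So `S_a(N) ≥ N^{1-o(1)}` as soon as a part `N^{-o(1)}` of the incidences is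
  covered by `N^{o(1)}` sets of this kind.
* If `s`, `t` are majority operations (for example medians for some lattices or trees), then `F` has
  no cycles of length six, and `|F| ≤ 4 |P| + 4 S_a(N) + 6 (|P| S_a(N))^{2/3}`. So in the same way
  `S_a(N) ≥ N^{3/2-α-o(1)}`. For `1/2 < α < 3/4` this is better than the exponents known for
  all choices; for `α ≥ 3/4` the starting files give it for all choices.
-/

set_option autoImplicit false

namespace Pool.Agent.Results.MP_bb5cc8_nt.ClosedIncidences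

open Finset Filter Pool.Agent.H170R2.PC Pool.Agent.R181.Thin

/-- The incidences: the pairs `(p, n)` of a prime `N^α ≤ p < 2 N^α` and an integer `1 ≤ n ≤ N` in the
class `a p`. -/
def Inc (α : ℝ) (N : ℕ) (a : (p : ℕ) → ZMod p) : Set (ℕ × ℕ) :=
  {e | InRange α N e.1 ∧ 1 ≤ e.2 ∧ e.2 ≤ N ∧ ((e.2 : ℕ) : ZMod e.1) = a e.1}

/-- `F` is closed under the componentwise application of some semilattice operations or of some
Mal'tsev operations. -/
def ClosedPiece (F : Set (ℕ × ℕ)) : Prop :=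
  (∃ s t : ℕ → ℕ → ℕ, IsSemilattice s ∧ IsSemilattice t ∧
    ∀ e ∈ F, ∀ e' ∈ F, (s e.1 e'.1, t e.2 e'.2) ∈ F) ∨
  ∃ s t : ℕ → ℕ → ℕ → ℕ, IsMaltsev s ∧ IsMaltsev t ∧
    ∀ e ∈ F, ∀ e' ∈ F, ∀ e'' ∈ F, (s e.1 e'.1 e''.1, t e.2 e'.2 e''.2) ∈ F

/-- `F` is closed under the componentwise application of some majority operations. -/
def MajorityPiece (F : Set (ℕ × ℕ)) : Prop :=
  ∃ s t : ℕ → ℕ → ℕ → ℕ, IsMajority s ∧ IsMajority t ∧
    ∀ e ∈ F, ∀ e' ∈ F, ∀ e'' ∈ F, (s e.1 e'.1 e''.1, t e.2 e'.2 e''.2) ∈ F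

/-- the number of primes in the range -/
noncomputable def primeCount (α : ℝ) (N : ℕ) : ℕ := {p : ℕ | InRange α N p}.ncard

theorem primeCount_eq (α : ℝ) (N : ℕ) : primeCount α N = #(PD α N) := by
  rw [primeCount, ← Set.ncard_coe_finset]
  congr 1
  ext p
  exact mem_PD.symm

theorem ceil_sq {α : ℝ} (hα : 1 / 2 < α) {N : ℕ} (hN : 2 ≤ N) : N < ⌈(N : ℝ) ^ α⌉₊ ^ 2 := by
  have hN1 : (1 : ℝ) < N := by exact_mod_cast (by omega : 1 < N)
  have h1 : (N : ℝ) < ((N : ℝ) ^ α) ^ 2 := by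
    rw [← Real.rpow_natCast, ← Real.rpow_mul (Nat.cast_nonneg _)]
    calc (N : ℝ) = (N : ℝ) ^ (1 : ℝ) := (Real.rpow_one _).symm
      _ < (N : ℝ) ^ (α * ((2 : ℕ) : ℝ)) := by
        refine Real.rpow_lt_rpow_of_exponent_lt hN1 ?_
        push_cast
        linarith
  have h2 : ((N : ℝ) ^ α) ^ 2 ≤ ((⌈(N : ℝ) ^ α⌉₊ ^ 2 : ℕ) : ℝ) := by
    push_cast
    exact pow_le_pow_left₀ (by positivity) (Nat.le_ceil _) 2
  exact_mod_cast h1.trans_le h2

theorem thin_inc {α : ℝ} (hα : 1 / 2 < α) {N : ℕ} (hN : 2 ≤ N) (a : (p : ℕ) → ZMod p) :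
    Thin (Inc α N a) := by
  rintro p q z z' hpq hz ⟨h1, h2, h3, h4⟩ ⟨-, h6, h7, h8⟩ ⟨k1, -, -, k4⟩ ⟨-, -, -, k8⟩
  apply hz
  simp only at h1 h2 h3 h4 h6 h7 h8 k1 k4 k8
  refine class_unique (Y := ⌈(N : ℝ) ^ α⌉₊) (N := N) h1.1 k1.1 hpq (Nat.ceil_le.2 h1.2.1)
    (Nat.ceil_le.2 k1.2.1) (ceil_sq hα hN) (mem_Icc.2 ⟨h2, h3⟩) (mem_Icc.2 ⟨h6, h7⟩) ?_ ?_
  · rw [h4, h8]
  · rw [k4, k8]

open Classical in
/-- the incidences as a finite set -/
noncomputable def IncF (α : ℝ) (N : ℕ) (a : (p : ℕ) → ZMod p) : Finset (ℕ × ℕ) :=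
  (PD α N ×ˢ Icc 1 N).filter fun e => ((e.2 : ℕ) : ZMod e.1) = a e.1

theorem coe_IncF (α : ℝ) (N : ℕ) (a : (p : ℕ) → ZMod p) : (IncF α N a : Set (ℕ × ℕ)) = Inc α N a := by
  ext e
  rw [mem_coe, IncF, mem_filter, mem_product, mem_PD, mem_Icc]
  constructor
  · rintro ⟨⟨h1, h2, h3⟩, h4⟩
    exact ⟨h1, h2, h3, h4⟩
  · rintro ⟨h1, h2, h3, h4⟩
    exact ⟨⟨h1, h2, h3⟩, h4⟩

theorem piece_data {α : ℝ} (hα : 1 / 2 < α) {N : ℕ} (hN : 2 ≤ N) {a : (p : ℕ) → ZMod p}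
    {F : Set (ℕ × ℕ)} (hF : F ⊆ Inc α N a) :
    ∃ E : Finset (ℕ × ℕ), (E : Set (ℕ × ℕ)) = F ∧ #E = F.ncard ∧ Thin (E : Set (ℕ × ℕ)) ∧
      #(E.image Prod.fst) ≤ primeCount α N ∧ #(E.image Prod.snd) ≤ coveredCount α N a := by
  classical
  have hfin : F.Finite := by
    refine Set.Finite.subset ?_ hF
    rw [← coe_IncF]
    exact finite_toSet _
  refine ⟨hfin.toFinset, hfin.coe_toFinset, (Set.ncard_eq_toFinset_card _ hfin).symm, ?_, ?_, ?_⟩
  · rw [hfin.coe_toFinset]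
    intro x x' y y' hx hy h1 h2 h3 h4
    exact thin_inc hα hN a x x' y y' hx hy (hF h1) (hF h2) (hF h3) (hF h4)
  · rw [primeCount_eq]
    refine card_le_card fun p hp => ?_
    obtain ⟨e, he, rfl⟩ := mem_image.1 hp
    exact mem_PD.2 (hF (hfin.mem_toFinset.1 he)).1
  · rw [coveredCount_eq]
    refine card_le_card fun n hn => ?_
    obtain ⟨e, he, rfl⟩ := mem_image.1 hn
    obtain ⟨h1, h2, h3, h4⟩ := hF (hfin.mem_toFinset.1 he)
    rw [Cov, mem_filter, mem_Icc]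
    exact ⟨⟨h2, h3⟩, e.1, mem_PD.2 h1, h4⟩

theorem closed_le {α : ℝ} (hα : 1 / 2 < α) {N : ℕ} (hN : 2 ≤ N) {a : (p : ℕ) → ZMod p}
    {F : Set (ℕ × ℕ)} (hF : F ⊆ Inc α N a) (hc : ClosedPiece F) :
    F.ncard ≤ primeCount α N + coveredCount α N a := by
  classical
  obtain ⟨E, hEF, hcard, hthin, h1, h2⟩ := piece_data hα hN hF
  have hmem : ∀ e, e ∈ F ↔ e ∈ E := fun e => by rw [← hEF, mem_coe]
  rw [← hcard]
  refine le_trans ?_ (Nat.add_le_add h1 h2)
  rcases hc with ⟨s, t, hs, ht, hc⟩ | ⟨s, t, hs, ht, hc⟩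
  · exact card_semilattice E hthin s t hs ht fun e he e' he' =>
      (hmem _).1 (hc e ((hmem e).2 he) e' ((hmem e').2 he'))
  · exact card_maltsev E hthin s t hs ht fun e he e' he' e'' he'' =>
      (hmem _).1 (hc e ((hmem e).2 he) e' ((hmem e').2 he') e'' ((hmem e'').2 he''))

theorem majority_le {α : ℝ} (hα : 1 / 2 < α) {N : ℕ} (hN : 2 ≤ N) {a : (p : ℕ) → ZMod p}
    {F : Set (ℕ × ℕ)} (hF : F ⊆ Inc α N a) (hc : MajorityPiece F) :
    (F.ncard : ℝ) ≤ 4 * primeCount α N + 4 * coveredCount α N a +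
      6 * ((primeCount α N : ℝ) * coveredCount α N a) ^ (2 / 3 : ℝ) := by
  classical
  obtain ⟨E, hEF, hcard, hthin, h1, h2⟩ := piece_data hα hN hF
  obtain ⟨s, t, hs, ht, hc⟩ := hc
  have h6 : NoHex (E : Set (ℕ × ℕ)) := by
    rw [hEF]
    exact noHex_of_majority (hEF ▸ hthin) s t hs ht hc
  rw [← hcard]
  set P := primeCount α N
  set S := coveredCount α N a
  have hp : (0 : ℝ) ≤ 6 * ((P : ℝ) * S) ^ (2 / 3 : ℝ) := by positivity
  rcases hex_bound E hthin h6 with h | h | h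
  · have h3 : #E ≤ 4 * P := h.trans (Nat.mul_le_mul_left _ h1)
    have h4 : (#E : ℝ) ≤ 4 * P := by exact_mod_cast h3
    have h5 : (0 : ℝ) ≤ 4 * S := by positivity
    linarith
  · have h3 : #E ≤ 4 * S := h.trans (Nat.mul_le_mul_left _ h2)
    have h4 : (#E : ℝ) ≤ 4 * S := by exact_mod_cast h3
    have h5 : (0 : ℝ) ≤ 4 * P := by positivity
    linarith
  · have h3 : #E ^ 3 ≤ 128 * (P * S) ^ 2 :=
      h.trans (Nat.mul_le_mul_left _ (Nat.pow_le_pow_left (Nat.mul_le_mul h1 h2) 2))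
    have h4 : (#E : ℝ) ^ 3 ≤ 128 * ((P : ℝ) * S) ^ 2 := by exact_mod_cast h3
    have h5 : (#E : ℝ) ≤ 6 * ((P : ℝ) * S) ^ (2 / 3 : ℝ) := by
      refine le_of_pow_le_pow_left₀ (n := 3) (by norm_num) hp ?_
      have h7 : (((P : ℝ) * S) ^ (2 / 3 : ℝ)) ^ 3 = ((P : ℝ) * S) ^ 2 := by
        rw [← Real.rpow_natCast, ← Real.rpow_mul (by positivity), ← Real.rpow_natCast]
        norm_num
      rw [mul_pow, h7]
      have : (0 : ℝ) ≤ ((P : ℝ) * S) ^ 2 := by positivity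
      linarith
    have h8 : (0 : ℝ) ≤ 4 * P := by positivity
    have h9 : (0 : ℝ) ≤ 4 * S := by positivity
    linarith

theorem ev_inc {α δ : ℝ} (hα : 1 / 2 < α) (hα1 : α < 1) (hδ : 0 < δ) :
    ∀ᶠ N : ℕ in atTop, ∀ a : (p : ℕ) → ZMod p, (N : ℝ) ^ (1 - δ) ≤ ((Inc α N a).ncard : ℝ) := by
  have hα0 : 0 < α := by linarith
  set η : ℝ := min (δ / 2) 1 with hη
  have hη0 : 0 < η := by positivity
  have hη1 : η ≤ 1 := min_le_right _ _
  have hη2 : η ≤ δ / 2 := min_le_left _ _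
  filter_upwards [ev_card hα0 hα1.le hη0 hη1, ev_div hα0 hα1 hη0 2 (by norm_num),
    eventually_ge_atTop 1] with N h1 h2 hN a
  have hN0 : (0 : ℝ) < N := by exact_mod_cast hN
  have hN1 : (1 : ℝ) ≤ N := by exact_mod_cast hN
  set Y := ⌈(N : ℝ) ^ α⌉₊ with hY
  set m := N / (2 * Y) with hm
  have hcard : #(PD α N) * m ≤ (Inc α N a).ncard := by
    classical
    have h3 : ((PD α N).sigma fun p => Cl N a p).card ≤ #(IncF α N a) := by
      refine card_le_card_of_injOn (fun x => (x.1, x.2)) ?_ ?_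
      · rintro ⟨p, n⟩ hx
        simp only [coe_sigma, Set.mem_sigma_iff, mem_coe, Cl, mem_filter] at hx
        rw [mem_coe, IncF, mem_filter, mem_product]
        exact ⟨⟨hx.1, hx.2.1⟩, hx.2.2⟩
      · rintro ⟨p, n⟩ - ⟨q, k⟩ - h
        obtain ⟨rfl, rfl⟩ := Prod.mk.inj h
        rfl
    have h4 : (Inc α N a).ncard = #(IncF α N a) := by
      rw [← coe_IncF, Set.ncard_coe_finset]
    rw [h4]
    refine le_trans ?_ h3
    rw [card_sigma, ← smul_eq_mul]
    refine card_nsmul_le_sum _ _ _ fun p hp => ?_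
    obtain ⟨hp1, -, hp2⟩ := PD_prop p hp
    refine card_Cl_ge hp1.pos ?_
    calc m * p ≤ m * (2 * Y) := Nat.mul_le_mul_left _ hp2
      _ ≤ N := Nat.div_mul_le_self _ _
  have h5 : ((m - 1 : ℕ) : ℝ) ≤ m := by exact_mod_cast Nat.sub_le _ _
  have h6 : (N : ℝ) ^ (1 - α - η) ≤ m := h2.trans h5
  calc (N : ℝ) ^ (1 - δ) ≤ (N : ℝ) ^ ((α - η) + (1 - α - η)) :=
        Real.rpow_le_rpow_of_exponent_le hN1 (by linarith)
    _ = (N : ℝ) ^ (α - η) * (N : ℝ) ^ (1 - α - η) := Real.rpow_add hN0 _ _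
    _ ≤ (#(PD α N) : ℝ) * m := mul_le_mul h1 h6 (by positivity) (by positivity)
    _ ≤ _ := by exact_mod_cast hcard

theorem primeCount_le {α : ℝ} (hα : 0 < α) {N : ℕ} (hN : 1 ≤ N) :
    (primeCount α N : ℝ) ≤ 3 * (N : ℝ) ^ α := by
  classical
  rw [primeCount_eq]
  have h1 : #(PD α N) ≤ ⌈2 * (N : ℝ) ^ α⌉₊ := by
    refine (card_le_card (filter_subset _ _)).trans ?_
    rw [card_range]
  have h2 : (⌈2 * (N : ℝ) ^ α⌉₊ : ℝ) < 2 * (N : ℝ) ^ α + 1 := Nat.ceil_lt_add_one (by positivity)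
  have h3 : (1 : ℝ) ≤ (N : ℝ) ^ α := Real.one_le_rpow (by exact_mod_cast hN) hα.le
  have h4 : (#(PD α N) : ℝ) ≤ ⌈2 * (N : ℝ) ^ α⌉₊ := by exact_mod_cast h1
  linarith

theorem union_le {L : ℕ} {F : Fin L → Set (ℕ × ℕ)} {B : ℝ} (hB : ∀ i, ((F i).ncard : ℝ) ≤ B) :
    (((⋃ i, F i).ncard : ℕ) : ℝ) ≤ L * B := by
  have h1 : (⋃ i, F i).ncard ≤ ∑ i, (F i).ncard := Set.ncard_iUnion_le_of_fintype F
  calc (((⋃ i, F i).ncard : ℕ) : ℝ) ≤ ((∑ i, (F i).ncard : ℕ) : ℝ) := by exact_mod_cast h1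
    _ = ∑ i, ((F i).ncard : ℝ) := by push_cast; rfl
    _ ≤ ∑ _i : Fin L, B := sum_le_sum fun i _ => hB i
    _ = L * B := by rw [sum_const, card_univ, Fintype.card_fin, nsmul_eq_mul]

/-- **Theorem.** Let `1/2 < α`, let `a` be a choice of residue classes, and let `I = Inc α N a`.
(1) Let `N ≥ 2`. If `F ⊆ I` is closed under semilattice operations or under Mal'tsev operations, then
`|F| ≤ |P| + S_a(N)`; if it is closed under majority operations, then
`|F| ≤ 4 |P| + 4 S_a(N) + 6 (|P| S_a(N))^{2/3}`.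
(2) Let `1/2 < α < 1`, `ε > 0` and let `N` be large. If at least a part `1/K` of `I` is covered by `L`
subsets closed in the first sense, then `K L S_a(N) ≥ N^{1-ε}` or `K L ≥ N^{1-α-ε}`; if these subsets
are closed in the second sense, then `(K L)^{3/2} S_a(N) ≥ N^{3/2-α-ε}` or `K L ≥ N^{1-α-ε}`. -/
theorem result :
    -- (1)
    (∀ (α : ℝ) (N : ℕ) (a : (p : ℕ) → ZMod p) (F : Set (ℕ × ℕ)), 1 / 2 < α → 2 ≤ N →
      F ⊆ Inc α N a →
      (ClosedPiece F → F.ncard ≤ primeCount α N + coveredCount α N a) ∧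
      (MajorityPiece F → (F.ncard : ℝ) ≤ 4 * primeCount α N + 4 * coveredCount α N a +
        6 * ((primeCount α N : ℝ) * coveredCount α N a) ^ (2 / 3 : ℝ))) ∧
    -- (2)
    (∀ α ε : ℝ, 1 / 2 < α → α < 1 → 0 < ε → ∃ N₀ : ℕ, ∀ N : ℕ, N₀ ≤ N →
      ∀ (a : (p : ℕ) → ZMod p) (L : ℕ) (K : ℝ) (F : Fin L → Set (ℕ × ℕ)),
      (∀ i, F i ⊆ Inc α N a) → ((Inc α N a).ncard : ℝ) ≤ K * (⋃ i, F i).ncard →
      ((∀ i, ClosedPiece (F i)) →
        (N : ℝ) ^ (1 - α - ε) ≤ K * L ∨ (N : ℝ) ^ (1 - ε) ≤ K * L * coveredCount α N a) ∧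
      ((∀ i, MajorityPiece (F i)) →
        (N : ℝ) ^ (1 - α - ε) ≤ K * L ∨
        (N : ℝ) ^ (3 / 2 - α - ε) ≤ (K * L) ^ (3 / 2 : ℝ) * coveredCount α N a)) := by
  refine ⟨fun α N a F hα hN hF => ⟨closed_le hα hN hF, majority_le hα hN hF⟩, ?_⟩
  intro α ε hα hα1 hε
  have hδ : 0 < ε / 4 := by positivity
  have hε2 : 0 < ε / 2 := by positivity
  obtain ⟨N₀, hN₀⟩ := eventually_atTop.1 ((ev_inc hα hα1 hδ).and ((ev_const 972 hε2).and
    (eventually_ge_atTop 2)))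
  refine ⟨N₀, fun N hN a L K F hF hK => ?_⟩
  obtain ⟨hI, hC, hN2⟩ := hN₀ N hN
  replace hI := hI a
  have hN0 : (0 : ℝ) < N := by exact_mod_cast (by omega : 0 < N)
  have hN1 : (1 : ℝ) ≤ N := by exact_mod_cast (by omega : 1 ≤ N)
  have hP := primeCount_le (α := α) (by linarith) (N := N) (by omega)
  set P : ℝ := (primeCount α N : ℝ) with hPdef
  set S : ℝ := (coveredCount α N a : ℝ) with hSdef
  have hP0 : 0 ≤ P := Nat.cast_nonneg _
  have hS0 : 0 ≤ S := Nat.cast_nonneg _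
  have hIpos : (0 : ℝ) < (Inc α N a).ncard := lt_of_lt_of_le (Real.rpow_pos_of_pos hN0 _) hI
  have hIfin : (Inc α N a).Finite := by
    rw [← coe_IncF]
    exact finite_toSet _
  have hUI : (((⋃ i, F i).ncard : ℕ) : ℝ) ≤ (Inc α N a).ncard := by
    exact_mod_cast Set.ncard_le_ncard (Set.iUnion_subset hF) hIfin
  have hU0 : (0 : ℝ) ≤ (((⋃ i, F i).ncard : ℕ) : ℝ) := Nat.cast_nonneg _
  have hK1 : 1 ≤ K := by
    by_contra hcon
    push Not at hcon
    have h1 : K * (((⋃ i, F i).ncard : ℕ) : ℝ) < (Inc α N a).ncard := by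
      rcases hU0.eq_or_lt with h | h
      · rw [← h, mul_zero]
        exact hIpos
      · exact lt_of_lt_of_le (mul_lt_of_lt_one_left h hcon) hUI
    linarith
  have hL1 : 1 ≤ L := by
    rcases Nat.eq_zero_or_pos L with h | h
    · exfalso
      subst h
      have : (⋃ i, F i) = ∅ := Set.iUnion_of_empty F
      rw [this, Set.ncard_empty] at hK
      push_cast at hK
      linarith
    · exact h
  have hL1' : (1 : ℝ) ≤ L := by exact_mod_cast hL1
  set W : ℝ := K * L with hW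
  have hW1 : 1 ≤ W := one_le_mul_of_one_le_of_one_le hK1 hL1'
  have hW0 : 0 < W := by linarith
  -- the general inequality
  have hgen : ∀ B : ℝ, (∀ i, ((F i).ncard : ℝ) ≤ B) → (N : ℝ) ^ (1 - ε / 4) ≤ W * B := by
    intro B hB
    calc (N : ℝ) ^ (1 - ε / 4) ≤ (Inc α N a).ncard := hI
      _ ≤ K * (⋃ i, F i).ncard := hK
      _ ≤ K * (L * B) := mul_le_mul_of_nonneg_left (union_le hB) (by linarith)
      _ = W * B := by rw [hW]; ring
  have hNα : (0 : ℝ) < (N : ℝ) ^ α := Real.rpow_pos_of_pos hN0 _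
  -- comparison of powers
  have hcmp : ∀ u v c x : ℝ, v + ε / 2 ≤ u → c ≤ 972 → 0 ≤ x → (N : ℝ) ^ u ≤ c * x →
      (N : ℝ) ^ v ≤ x := by
    intro u v c x huv hc hx h
    have h1 : (N : ℝ) ^ v * (N : ℝ) ^ (ε / 2) ≤ (N : ℝ) ^ u := by
      rw [← Real.rpow_add hN0]
      exact Real.rpow_le_rpow_of_exponent_le hN1 huv
    have h2 : (N : ℝ) ^ v * 972 ≤ (N : ℝ) ^ v * (N : ℝ) ^ (ε / 2) :=
      mul_le_mul_of_nonneg_left hC (Real.rpow_nonneg hN0.le _)
    have h3 : c * x ≤ 972 * x := mul_le_mul_of_nonneg_right hc hx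
    linarith
  have hsplit : (N : ℝ) ^ (1 - ε / 4) = (N : ℝ) ^ (1 - ε / 4 - α) * (N : ℝ) ^ α := by
    rw [← Real.rpow_add hN0]
    congr 1
    ring
  refine ⟨fun hc => ?_, fun hc => ?_⟩
  · have h1 := hgen (P + S) fun i => by
      have := closed_le hα hN2 (hF i) (hc i)
      have h2 : ((F i).ncard : ℝ) ≤ ((primeCount α N + coveredCount α N a : ℕ) : ℝ) := by
        exact_mod_cast this
      rw [Nat.cast_add] at h2
      exact h2
    by_cases h2 : S ≤ 3 * (N : ℝ) ^ α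
    · left
      have h3 : (N : ℝ) ^ (1 - ε / 4) ≤ (6 * W) * (N : ℝ) ^ α := by
        calc _ ≤ W * (P + S) := h1
          _ ≤ W * (3 * (N : ℝ) ^ α + 3 * (N : ℝ) ^ α) := by gcongr
          _ = _ := by ring
      rw [hsplit] at h3
      have h4 := le_of_mul_le_mul_right h3 hNα
      exact hcmp (1 - ε / 4 - α) _ 6 W (by linarith) (by norm_num) hW0.le h4
    · right
      push Not at h2
      have h3 : (N : ℝ) ^ (1 - ε / 4) ≤ 2 * (W * S) := by
        calc _ ≤ W * (P + S) := h1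
          _ ≤ W * (S + S) := by
            refine mul_le_mul_of_nonneg_left ?_ hW0.le
            linarith
          _ = _ := by ring
      exact hcmp (1 - ε / 4) _ 2 (W * S) (by linarith) (by norm_num) (by positivity) h3
  · have h1 := hgen (4 * P + 4 * S + 6 * (P * S) ^ (2 / 3 : ℝ)) fun i =>
      majority_le hα hN2 (hF i) (hc i)
    set Q : ℝ := (P * S) ^ (2 / 3 : ℝ) with hQ
    have hQ0 : 0 ≤ Q := by positivity
    have h2 : (N : ℝ) ^ (1 - ε / 4) ≤ 3 * (W * (4 * P)) ∨ (N : ℝ) ^ (1 - ε / 4) ≤ 3 * (W * (4 * S)) ∨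
        (N : ℝ) ^ (1 - ε / 4) ≤ 3 * (W * (6 * Q)) := by
      by_contra hcon
      push Not at hcon
      obtain ⟨c1, c2, c3⟩ := hcon
      nlinarith
    rcases h2 with h2 | h2 | h2
    · left
      have h3 : (N : ℝ) ^ (1 - ε / 4) ≤ (36 * W) * (N : ℝ) ^ α := by
        calc _ ≤ 3 * (W * (4 * P)) := h2
          _ ≤ 3 * (W * (4 * (3 * (N : ℝ) ^ α))) := by gcongr
          _ = _ := by ring
      rw [hsplit] at h3
      have h4 := le_of_mul_le_mul_right h3 hNα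
      exact hcmp (1 - ε / 4 - α) _ 36 W (by linarith) (by norm_num) hW0.le h4
    · right
      have h3 : W ≤ W ^ (3 / 2 : ℝ) := by
        calc W = W ^ (1 : ℝ) := (Real.rpow_one W).symm
          _ ≤ _ := Real.rpow_le_rpow_of_exponent_le hW1 (by norm_num)
      have h4 : (N : ℝ) ^ (1 - ε / 4) ≤ 12 * (W ^ (3 / 2 : ℝ) * S) := by
        calc _ ≤ 3 * (W * (4 * S)) := h2
          _ = 12 * (W * S) := by ring
          _ ≤ _ := by gcongr
      exact hcmp (1 - ε / 4) _ 12 _ (by linarith) (by norm_num) (by positivity) h4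
    · right
      have h3 : (N : ℝ) ^ (1 - ε / 4) ≤ 18 * (W * Q) := by linarith
      have h4 : ((N : ℝ) ^ (1 - ε / 4)) ^ (3 / 2 : ℝ) ≤ (18 * (W * Q)) ^ (3 / 2 : ℝ) :=
        Real.rpow_le_rpow (by positivity) h3 (by norm_num)
      have h5 : ((N : ℝ) ^ (1 - ε / 4)) ^ (3 / 2 : ℝ) = (N : ℝ) ^ (3 / 2 - 3 * ε / 8) := by
        rw [← Real.rpow_mul hN0.le]
        congr 1
        ring
      have h6 : Q ^ (3 / 2 : ℝ) = P * S := by
        rw [hQ, ← Real.rpow_mul (by positivity)]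
        norm_num
      have h7 : (18 * (W * Q)) ^ (3 / 2 : ℝ) = (18 : ℝ) ^ (3 / 2 : ℝ) * (W ^ (3 / 2 : ℝ) * (P * S)) := by
        rw [Real.mul_rpow (by norm_num) (by positivity), Real.mul_rpow hW0.le hQ0, h6]
      have h8 : (18 : ℝ) ^ (3 / 2 : ℝ) ≤ 324 := by
        calc (18 : ℝ) ^ (3 / 2 : ℝ) ≤ (18 : ℝ) ^ (2 : ℝ) :=
              Real.rpow_le_rpow_of_exponent_le (by norm_num) (by norm_num)
          _ = 324 := by norm_num
      have h9 : (N : ℝ) ^ (3 / 2 - 3 * ε / 8) ≤ (972 * (W ^ (3 / 2 : ℝ) * S)) * (N : ℝ) ^ α := by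
        rw [← h5]
        calc _ ≤ (18 : ℝ) ^ (3 / 2 : ℝ) * (W ^ (3 / 2 : ℝ) * (P * S)) := h4.trans_eq h7
          _ ≤ 324 * (W ^ (3 / 2 : ℝ) * ((3 * (N : ℝ) ^ α) * S)) := by gcongr
          _ = _ := by ring
      have h10 : (N : ℝ) ^ (3 / 2 - 3 * ε / 8) = (N : ℝ) ^ (3 / 2 - 3 * ε / 8 - α) * (N : ℝ) ^ α := by
        rw [← Real.rpow_add hN0]
        congr 1
        ring
      rw [h10] at h9
      have h11 := le_of_mul_le_mul_right h9 hNα
      exact hcmp (3 / 2 - 3 * ε / 8 - α) _ 972 _ (by linarith) le_rfl (by positivity) h11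

end Pool.Agent.Results.MP_bb5cc8_nt.ClosedIncidences
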