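import Pool.Agent.TH404.AK.Sdc3
import Pool.Agent.R509.RP.Main

/-!
# Residue classes modulo a random set of primes

`Pr x` is the set of the primes `p` with `x ≤ p < 2 x` (for `x = N^α` these are the primes of the problem).
A set `Q` of primes is *spread* (with constants `K, c`) if for EVERY choice `a` of one residue class for each
prime, EVERY interval `(u, u + L]` of length `L ≥ K x` contains at least `c |Q| L / x` integers `n` with
`n ≡ a p (mod p)` for some `p ∈ Q`. This is the largest possible order of magnitude: the number of pairs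
`(n, p)` is at most `2 |Q| L / x`.

1. There is a constant `K` such that for `t < 1 / 1.669587 = 0.5989...`, all large `x` and every
   `M ≤ |Pr x| ^ t`, all but the proportion `2 ^ (-M)` of the `M`-element subsets `Q` of `Pr x` are spread. The
   intervals may be as short as `K x`.
2. So, for `0 < α < 1` and `N` large, all but the proportion `2 ^ (-M)` of the sets of `M` primes from
   `[N^α, 2 N^α)` cover at least `c M N^(1-α)` integers of `[1, N]`, for every choice of the classes.
3. If the statement of 1. holds for some `t ≤ 1` (and some `K`), then `S_a(N) ≥ N^(1 - α (1 - t) - o(1))` for all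
   `0 < α < 1`, uniformly in the choice. So the full range `t < 1` would answer the question.

The proof uses the sums-differences inequality with exponent `1.669587` of the starting files, and the
theorem on progressions with a random set of common differences (`Good`) of the team (helper535).
-/

set_option autoImplicit false

namespace Pool.Agent.Results.MP_bb5cc8_nt.RandomPrimes

open Pool.Agent.R509.RP Pool.Agent.H170R2.PC

open Classical in
theorem result :
    (∃ K : ℝ, ∀ t : ℝ, 0 < t → t < 1 / 1.669587 → AlmostAllSpread K t) ∧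
    (∀ t : ℝ, 0 < t → t < 1 / 1.669587 → ∀ α : ℝ, 0 < α → α < 1 →
      ∃ (c : ℝ) (N₀ : ℕ), 0 < c ∧ ∀ N : ℕ, N₀ ≤ N → ∀ M : ℕ,
        (M : ℝ) ≤ ((Pr ((N : ℝ) ^ α)).card : ℝ) ^ t →
        2 ^ M * (((Pr ((N : ℝ) ^ α)).powersetCard M).filter
          (fun Q => ¬ ∀ a : (p : ℕ) → ZMod p,
            c * M * (N : ℝ) ^ (1 - α) ≤ ((covered Q a 0 N).card : ℝ))).card ≤
          (Pr ((N : ℝ) ^ α)).card.choose M) ∧
    (∀ K t : ℝ, 0 < t → t ≤ 1 → AlmostAllSpread K t →
      ∀ α : ℝ, 0 < α → α < 1 → LowerExponent α (1 - α * (1 - t))) := by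
  have hsd : Pool.Agent.W46.KK.SD 1.669587 := by
    obtain ⟨S, h⟩ := Pool.Agent.TH404.AK.sdc3
    have e : (1.669587 : ℝ) = 1669587 / 1000000 := by norm_num
    rw [e]
    exact ⟨S, h⟩
  obtain ⟨k, hk⟩ := Pool.Agent.R535.AK.good_of_SD (by norm_num) hsd
  have hk' : ∀ t : ℝ, 0 < t → t < 1 / 1.669587 → AlmostAllSpread (6 * ((k + 1 : ℕ) : ℝ)) t :=
    fun t h0 h1 => spread_of_good (by omega) (good_succ (hk 1 t h0 h1))
  exact ⟨⟨_, hk'⟩, fun t h0 h1 α hα0 hα1 => count_of_spread (hk' t h0 h1) hα0 hα1,
    fun K t h0 h1 h α hα0 hα1 => exponent_of_spread h0 h1 h hα0 hα1⟩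

end Pool.Agent.Results.MP_bb5cc8_nt.RandomPrimes
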